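import Mathlib

namespace Pool.Agent.Results.MP_705328_nt.CommonPrimeOrders

open Polynomial

/-- `P d α n` is the polynomial `f_λ^n(α)` in the variable `λ = X`, where `f_λ(z) = z ^ d + λ`. -/
noncomputable def P {F : Type} [Field F] (d : ℕ) (α : F) : ℕ → F[X]
  | 0 => C α
  | n + 1 => P d α n ^ d + X

/-- Some prime `t` not dividing `d` divides the order of `q` modulo every prime `ℓ ∣ d` with
`ℓ ∤ q`. -/
def HasCommonPrime (q d : ℕ) : Prop :=
  ∃ t : ℕ, t.Prime ∧ ¬ t ∣ d ∧
    ∀ ℓ : ℕ, ℓ.Prime → ℓ ∣ d → ¬ ℓ ∣ q → t ∣ orderOf (q : ZMod ℓ)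

variable {F : Type} [Field F]

lemma natDegree_P {d : ℕ} (hd : 2 ≤ d) (α : F) (n : ℕ) : (P d α (n + 1)).natDegree = d ^ n := by
  induction n with
  | zero =>
    simp only [P, pow_zero]
    rw [natDegree_add_eq_right_of_natDegree_lt]
    · exact natDegree_X
    · rw [natDegree_pow, natDegree_C, natDegree_X]; simp
  | succ n ih =>
    rw [P, natDegree_add_eq_left_of_natDegree_lt]
    · rw [natDegree_pow, ih, pow_succ, mul_comm]
    · rw [natDegree_pow, ih, natDegree_X]
      have : 1 ≤ d ^ n := Nat.one_le_pow _ _ (by omega)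
      nlinarith

lemma aeval_P {K : Type} [Field K] [Algebra F K] (d : ℕ) (α : F) (γ : K) (n : ℕ) :
    aeval γ (P d α n) = (fun x : K => x ^ d + γ)^[n] (algebraMap F K α) := by
  induction n with
  | zero => simp [P]
  | succ n ih =>
    rw [Function.iterate_succ_apply', ← ih, P]
    simp

lemma inj_map {K : Type} [Field K] [Fintype K] {d : ℕ} (hd : 2 ≤ d)
    (h : Nat.Coprime d (Fintype.card K - 1)) (γ : K) :
    Function.Injective (fun x : K => x ^ d + γ) := by
  classical
  intro x y hxy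
  have hxy' : x ^ d = y ^ d := add_right_cancel hxy
  by_cases hx : x = 0
  · subst hx
    rw [zero_pow (by omega)] at hxy'
    exact (pow_eq_zero_iff (by omega)).1 hxy'.symm |>.symm
  · have hy : y ≠ 0 := by
      rintro rfl
      rw [zero_pow (by omega)] at hxy'
      exact hx ((pow_eq_zero_iff (by omega)).1 hxy')
    have hc : (Nat.card Kˣ).Coprime d := by
      rw [Nat.card_eq_fintype_card, Fintype.card_units]
      exact h.symm
    have := hc.pow_left_bijective.1 (a₁ := Units.mk0 x hx) (a₂ := Units.mk0 y hy) (by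
      simp only
      ext
      simpa using hxy')
    simpa using congrArg Units.val this

lemma iterate_id {K : Type} [Field K] [Fintype K] {d : ℕ} (hd : 2 ≤ d)
    (h : Nat.Coprime d (Fintype.card K - 1)) (γ : K) {N : ℕ}
    (hN : (Fintype.card K).factorial ∣ N) (x : K) :
    (fun x : K => x ^ d + γ)^[N] x = x := by
  classical
  have hb : Function.Bijective (fun x : K => x ^ d + γ) :=
    Finite.injective_iff_bijective.1 (inj_map hd h γ)
  let σ : Equiv.Perm K := Equiv.ofBijective _ hb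
  have hσ : ⇑σ = fun x : K => x ^ d + γ := rfl
  obtain ⟨c, rfl⟩ := hN
  have h1 : σ ^ (Fintype.card K).factorial = 1 := by
    rw [← Fintype.card_perm]
    exact pow_card_eq_one
  rw [← hσ, Equiv.Perm.iterate_eq_pow, pow_mul, h1, one_pow]
  rfl

lemma dvd_natDegree (t : ℕ) (a : F[X]) (ha : a ≠ 0)
    (h : ∀ g : F[X], Irreducible g → g ∣ a → t ∣ g.natDegree) : t ∣ a.natDegree := by
  induction a using WfDvdMonoid.induction_on_irreducible with
  | zero => exact absurd rfl ha
  | unit u hu =>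
    rw [natDegree_eq_zero_of_isUnit hu]
    exact dvd_zero t
  | mul a i ha0 hi ih =>
    rw [natDegree_mul hi.ne_zero ha0]
    exact dvd_add (h i hi (dvd_mul_right i a))
      (ih ha0 (fun g hg hga => h g hg (hga.mul_left i)))


lemma case_ne [Fintype F] {d : ℕ} (hd : 2 ≤ d) (hH : HasCommonPrime (Fintype.card F) d)
    {α β : F} (hab : α ≠ β) (M : ℕ) :
    ∃ n, 1 ≤ n ∧ ∃ g : F[X], Irreducible g ∧ g ∣ P d α n - C β ∧ M < g.natDegree ∧
      Nat.Coprime d (Fintype.card F ^ g.natDegree - 1) := by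
  classical
  obtain ⟨t, ht, htd, hℓ⟩ := hH
  set q := Fintype.card F with hq
  have hq2 : 1 < q := Fintype.one_lt_card
  set n := (q ^ M).factorial with hn
  have hn1 : 1 ≤ n := Nat.factorial_pos _
  obtain ⟨n', hn'⟩ : ∃ n', n = n' + 1 := ⟨n - 1, by omega⟩
  by_contra hno
  push Not at hno
  have hdeg : (P d α n - C β).natDegree = d ^ n' := by
    rw [natDegree_sub_C, hn', natDegree_P hd]
  have hne : P d α n - C β ≠ 0 := by
    intro h0
    rw [h0, natDegree_zero] at hdeg
    have : 0 < d ^ n' := Nat.pow_pos (by omega)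
    omega
  have key : ∀ g : F[X], Irreducible g → g ∣ P d α n - C β → t ∣ g.natDegree := by
    intro g hg hgd
    have : Fact (Irreducible g) := ⟨hg⟩
    have hbad : ¬ Nat.Coprime d (q ^ g.natDegree - 1) := by
      intro hcop
      have hgM : g.natDegree ≤ M := by
        by_contra h
        exact hno n hn1 g hg hgd (by omega) hcop
      have : Module.Finite F (AdjoinRoot g) :=
        Module.Finite.of_basis (AdjoinRoot.powerBasis hg.ne_zero).basis
      have : Finite (AdjoinRoot g) := Module.finite_of_finite F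
      have : Fintype (AdjoinRoot g) := Fintype.ofFinite _
      have hcard : Fintype.card (AdjoinRoot g) = q ^ g.natDegree := by
        rw [Module.card_eq_pow_finrank (K := F), (AdjoinRoot.powerBasis hg.ne_zero).finrank,
          AdjoinRoot.powerBasis_dim]
      have h1 := aeval_P d α (AdjoinRoot.root g) n
      have h2 : aeval (AdjoinRoot.root g) (P d α n - C β) = 0 := by
        rw [AdjoinRoot.aeval_eq, AdjoinRoot.mk_eq_zero]
        exact hgd
      rw [map_sub, h1, iterate_id hd (by rw [hcard]; exact hcop) _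
        (by rw [hcard]; exact Nat.factorial_dvd_factorial (Nat.pow_le_pow_right (by omega) hgM)),
        aeval_C, sub_eq_zero] at h2
      exact hab ((algebraMap F (AdjoinRoot g)).injective h2)
    obtain ⟨ℓ, hℓp, hℓd, hℓq⟩ := Nat.Prime.not_coprime_iff_dvd.1 hbad
    have hk : 0 < g.natDegree := hg.natDegree_pos
    have hpos : 1 ≤ q ^ g.natDegree := Nat.one_le_pow _ _ (by omega)
    have hpow : (q : ZMod ℓ) ^ g.natDegree = 1 := by
      have h3 : ((q ^ g.natDegree - 1 : ℕ) : ZMod ℓ) = 0 := (ZMod.natCast_eq_zero_iff _ _).2 hℓq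
      rw [Nat.cast_sub hpos, Nat.cast_pow, Nat.cast_one, sub_eq_zero] at h3
      exact h3
    have hℓnq : ¬ ℓ ∣ q := by
      intro h4
      have h5 : (q : ZMod ℓ) = 0 := (ZMod.natCast_eq_zero_iff _ _).2 h4
      have : Fact ℓ.Prime := ⟨hℓp⟩
      rw [h5, zero_pow hk.ne'] at hpow
      exact zero_ne_one hpow
    exact (hℓ ℓ hℓp hℓd hℓnq).trans (orderOf_dvd_of_pow_eq_one hpow)
  have h6 := dvd_natDegree t _ hne key
  rw [hdeg] at h6
  exact htd (ht.dvd_of_dvd_pow h6)

/-- If `gcd(d, q - 1) = 1` then every degree `k ≡ 1 (mod d!)` is good. -/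
lemma good_degree {q d : ℕ} (hq : 1 < q) (hd : 2 ≤ d) (h : Nat.Coprime d (q - 1)) (M : ℕ) :
    Nat.Coprime d (q ^ (1 + M * d.factorial) - 1) := by
  by_contra hbad
  obtain ⟨ℓ, hℓp, hℓd, hℓq⟩ := Nat.Prime.not_coprime_iff_dvd.1 hbad
  have : Fact ℓ.Prime := ⟨hℓp⟩
  have hpos : 1 ≤ q ^ (1 + M * d.factorial) := Nat.one_le_pow _ _ (by omega)
  have hpow : (q : ZMod ℓ) ^ (1 + M * d.factorial) = 1 := by
    have h3 : ((q ^ (1 + M * d.factorial) - 1 : ℕ) : ZMod ℓ) = 0 :=
      (ZMod.natCast_eq_zero_iff _ _).2 hℓq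
    rw [Nat.cast_sub hpos, Nat.cast_pow, Nat.cast_one, sub_eq_zero] at h3
    exact h3
  have hq0 : (q : ZMod ℓ) ≠ 0 := by
    intro h5
    rw [h5, zero_pow (by omega)] at hpow
    exact zero_ne_one hpow
  have hle : ℓ ≤ d := Nat.le_of_dvd (by omega) hℓd
  have hdvd : ℓ - 1 ∣ d.factorial := Nat.dvd_factorial (by have := hℓp.two_le; omega) (by omega)
  obtain ⟨c, hc⟩ := hdvd
  have h7 : (q : ZMod ℓ) ^ (M * d.factorial) = 1 := by
    rw [hc, show M * ((ℓ - 1) * c) = (ℓ - 1) * (M * c) by ring, pow_mul,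
      ZMod.pow_card_sub_one_eq_one hq0, one_pow]
  rw [pow_add, h7, mul_one, pow_one] at hpow
  have h8 : ℓ ∣ q - 1 := by
    rw [← ZMod.natCast_eq_zero_iff, Nat.cast_sub (by omega), hpow]
    simp
  exact Nat.Prime.not_coprime_iff_dvd.2 ⟨ℓ, hℓp, hℓd, h8⟩ h

lemma case_eq [Fintype F] {d : ℕ} (hd : 2 ≤ d) (hc : Nat.Coprime d (Fintype.card F - 1))
    (α : F) (M : ℕ) :
    ∃ n, 1 ≤ n ∧ ∃ g : F[X], Irreducible g ∧ g ∣ P d α n - C α ∧ M < g.natDegree ∧
      Nat.Coprime d (Fintype.card F ^ g.natDegree - 1) := by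
  classical
  set q := Fintype.card F with hq
  have hq2 : 1 < q := Fintype.one_lt_card
  set k := 1 + M * d.factorial with hk
  have hkM : M < k := by
    have := Nat.factorial_pos d
    nlinarith
  obtain ⟨p, hp⟩ := CharP.exists F
  have hpp : p.Prime := by
    rcases CharP.char_is_prime_or_zero F p with h | h
    · exact h
    · subst h
      exact absurd (CharP.charP_to_charZero F) (by
        intro h0
        exact not_finite F)
  have : Fact p.Prime := ⟨hpp⟩
  have hkne : NeZero k := ⟨by omega⟩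
  let K := FiniteField.Extension F p k
  have : Finite K := Module.finite_of_finite F
  have : Fintype K := Fintype.ofFinite K
  have hcard : Fintype.card K = q ^ k := by
    rw [Module.card_eq_pow_finrank (K := F), FiniteField.finrank_extension]
  obtain ⟨γ, hγ⟩ := Field.exists_primitive_element F K
  have hint : IsIntegral F γ := Algebra.IsIntegral.isIntegral γ
  have hmin : (minpoly F γ).natDegree = k := by
    rw [(Field.primitive_element_iff_minpoly_natDegree_eq F γ).1 hγ]
    exact FiniteField.finrank_extension F p k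
  have hcop : Nat.Coprime d (q ^ k - 1) := good_degree hq2 hd hc M
  refine ⟨(q ^ k).factorial, Nat.factorial_pos _, minpoly F γ, minpoly.irreducible hint, ?_,
    by omega, by rw [hmin]; exact hcop⟩
  apply minpoly.dvd
  rw [map_sub, aeval_P, iterate_id hd (by rw [hcard]; exact hcop) _ (by rw [hcard]), aeval_C,
    sub_self]

/-- Prime powers satisfy the hypothesis. -/
lemma hasCommonPrime_primePow {q ℓ a : ℕ} (hq : 1 < q) (hℓ : ℓ.Prime) (ha : a ≠ 0)
    (hc : Nat.Coprime (ℓ ^ a) (q - 1)) (hℓq : ¬ ℓ ∣ q) : HasCommonPrime q (ℓ ^ a) := by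
  have : Fact ℓ.Prime := ⟨hℓ⟩
  have hq0 : (q : ZMod ℓ) ≠ 0 := fun h => hℓq ((ZMod.natCast_eq_zero_iff _ _).1 h)
  have hne1 : orderOf (q : ZMod ℓ) ≠ 1 := by
    intro h1
    rw [orderOf_eq_one_iff] at h1
    have h8 : ℓ ∣ q - 1 := by
      rw [← ZMod.natCast_eq_zero_iff, Nat.cast_sub (by omega), h1]
      simp
    exact Nat.Prime.not_coprime_iff_dvd.2 ⟨ℓ, hℓ, dvd_pow_self ℓ ha, h8⟩ hc
  obtain ⟨t, ht, htd⟩ := Nat.exists_prime_and_dvd hne1
  have h2 : orderOf (q : ZMod ℓ) ∣ ℓ - 1 := orderOf_dvd_of_pow_eq_one (ZMod.pow_card_sub_one_eq_one hq0)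
  have htl : t ∣ ℓ - 1 := htd.trans h2
  refine ⟨t, ht, ?_, ?_⟩
  · intro h3
    have h4 : t ∣ ℓ := ht.dvd_of_dvd_pow h3
    have h5 : t = ℓ := (Nat.prime_dvd_prime_iff_eq ht hℓ).1 h4
    have h6 := Nat.le_of_dvd (by have := hℓ.two_le; omega) htl
    have := hℓ.two_le
    omega
  · intro ℓ' hℓ' hd' _
    have h7 : ℓ' = ℓ := (Nat.prime_dvd_prime_iff_eq hℓ' hℓ).1 (hℓ'.dvd_of_dvd_pow hd')
    rw [h7]
    exact htd

/-- **Main theorem.**  Let `F` be a finite field with `q` elements and `d ≥ 2` with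
`gcd(d, q - 1) = 1`. If `α = β`, or `d` is a power of a prime `ℓ ∤ q`, or more generally some prime
`t ∤ d` divides the order of `q` modulo every prime `ℓ ∣ d`, `ℓ ∤ q`, then for every `M` some
`P d α n - β` has an irreducible factor of degree `k > M` with `gcd(d, q ^ k - 1) = 1`. -/
theorem result (F : Type) [Field F] [Fintype F] (d : ℕ) (hd : 2 ≤ d)
    (hc : Nat.Coprime d (Fintype.card F - 1)) (α β : F)
    (h : α = β ∨ (∃ ℓ a : ℕ, ℓ.Prime ∧ ¬ ℓ ∣ Fintype.card F ∧ d = ℓ ^ a) ∨
      HasCommonPrime (Fintype.card F) d) (M : ℕ) :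
    ∃ n, 1 ≤ n ∧ ∃ g : F[X], Irreducible g ∧ g ∣ P d α n - C β ∧ M < g.natDegree ∧
      Nat.Coprime d (Fintype.card F ^ g.natDegree - 1) := by
  rcases eq_or_ne α β with rfl | hab
  · exact case_eq hd hc α M
  · have hH : HasCommonPrime (Fintype.card F) d := by
      rcases h with h | ⟨ℓ, a, hℓ, hℓq, rfl⟩ | h
      · exact absurd h hab
      · refine hasCommonPrime_primePow Fintype.one_lt_card hℓ ?_ hc hℓq
        rintro rfl
        simp at hd
      · exact h
    exact case_ne hd hH hab M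

end Pool.Agent.Results.MP_705328_nt.CommonPrimeOrders
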